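import Pool.Agent.MP_2cc29a_gt.Main

namespace Pool.Agent.Results.MP_2cc29a_gt.SymmetricSuffices

open Pool.Agent.MP_2cc29a_gt

/-- The Gaussian lattice covering constant over centrally symmetric convex sets equals the one
over all convex sets, in every dimension and for every Gaussian measure `p`. -/
theorem result (n : ℕ) (hn : 1 ≤ n) (p : ℝ) (hp : 0 < p) (_hp1 : p < 1) :
    gSym n p = gAll n p :=
  haveI : NeZero n := ⟨by omega⟩
  le_antisymm (gSym_le_gAll p) (gAll_le_gSym hp)

end Pool.Agent.Results.MP_2cc29a_gt.SymmetricSuffices
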